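import Pool.Agent.Helper82K9.TF.TF6
import Pool.Agent.Helper82K9.TF.TF9

/-!
# Least primes for almost all values of every polynomial with almost every large leading coefficient, as moduli

Nothing is used besides Mathlib in the statement.
-/

set_option autoImplicit false

namespace Pool.Agent.Results.MP_e1dc24_nt.LargeLeadingCoefficients

open Finset

open Classical in
/-- The number of the `c` with `0 ≤ c < m` and `gcd(c, m) = 1` for which no prime `p ≤ x` is congruent to `c` modulo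
`m`; for `m ≥ 2` this is the number of the reduced classes with `p(c, m) > x`. -/
noncomputable def late (m : ℕ) (x : ℝ) : ℕ :=
  ((range m).filter (fun c => Nat.Coprime c m ∧ ∀ p : ℕ, p.Prime → (p : ℝ) ≤ x → ¬ p % m = c)).card

/-- `ψ(x; m, c) = ∑_{n ≤ x, n ≡ c mod m} Λ(n)` for `0 ≤ c < m` -/
noncomputable def psiAP (x : ℝ) (m c : ℕ) : ℝ :=
  ∑ n ∈ (Icc 1 ⌊x⌋₊).filter (fun n => n % m = c), ArithmeticFunction.vonMangoldt n

open Classical in
/-- The number of the `c` with `0 ≤ c < m` and `gcd(c, m) = 1` with `|ψ(x; m, c) - x / φ(m)| ≥ η x / φ(m)`. -/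
noncomputable def off (m : ℕ) (x η : ℝ) : ℕ :=
  ((range m).filter (fun c => Nat.Coprime c m ∧ η * (x / (Nat.totient m : ℝ)) ≤
    |psiAP x m c - x / (Nat.totient m : ℝ)|)).card

/-- For all real `x = lam φ(m) log m` with `m ≤ x ≤ m (log m) ^ A`: the least prime `p(c, m)` is larger than `x` for at
most `(1 + ε) φ(m) / (1 + lam)` of the reduced classes `c`, and for all `η > 0` at most `(1 + ε) φ(m) / (η² lam)` of the
reduced classes `c` have `|ψ(x; m, c) - x / φ(m)| ≥ η x / φ(m)`. -/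
def Good (ε : ℝ) (A m : ℕ) : Prop :=
  ∀ x : ℝ, (m : ℝ) ≤ x → x ≤ m * Real.log m ^ A →
    (late m x : ℝ) * (1 + x / (Nat.totient m * Real.log m)) ≤ (1 + ε) * Nat.totient m ∧
    ∀ η : ℝ, 0 < η → (off m x η : ℝ) * (η ^ 2 * (x / (Nat.totient m * Real.log m))) ≤ (1 + ε) * Nat.totient m

lemma good_iff (ε : ℝ) (A m : ℕ) : Good ε A m ↔ Pool.Agent.R501.LP.LpG ε A m := Iff.rfl

open Classical in
/-- The number of the integers `0 ≤ a < X` for which the value `m = f(a)` is positive and does not have the property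
`Good`. -/
noncomputable def exceptions (ε : ℝ) (A X : ℕ) (f : Polynomial ℤ) : ℕ :=
  ((range X).filter (fun a : ℕ => 0 < f.eval (a : ℤ) ∧ ¬ Good ε A (f.eval (a : ℤ)).toNat)).card

open Classical in
/-- The members `b` of `𝓑` for which there is a polynomial `f` with integer coefficients, of degree at most `d`, with the
coefficient `b` of `x ^ d`, with `|f(a)| ≤ B N` for all integers `0 ≤ a < X`, with more than `X / log ^ U N` exceptions. -/
noncomputable def badLeading (ε : ℝ) (A U B d X N : ℕ) (𝓑 : Finset ℕ) : Finset ℕ :=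
  𝓑.filter (fun b : ℕ => ∃ f : Polynomial ℤ, f.natDegree ≤ d ∧ f.coeff d = (b : ℤ) ∧
    (∀ a < X, |f.eval (a : ℤ)| ≤ B * (N : ℤ)) ∧ (X : ℝ) / Real.log N ^ U < exceptions ε A X f)

lemma exceptions_le (P : ℕ → Prop) (ε : ℝ) (A : ℕ) (hP : ∀ m, P m ↔ ¬ Good ε A m) [DecidablePred P] (X : ℕ)
    (f : Polynomial ℤ) [DecidablePred fun a : ℕ => 0 < f.eval (a : ℤ) ∧ P (f.eval (a : ℤ)).toNat] :
    exceptions ε A X f ≤ ((range X).filter (fun a : ℕ => 0 < f.eval (a : ℤ) ∧ P (f.eval (a : ℤ)).toNat)).card := by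
  classical
  unfold exceptions
  apply card_le_card
  intro m hm
  rw [mem_filter] at hm ⊢
  exact ⟨hm.1, hm.2.1, (hP _).2 hm.2.2⟩

lemma mem_bad (ε : ℝ) (A U B d X N : ℕ) (𝓑 : Finset ℕ) (b : ℕ) : b ∈ badLeading ε A U B d X N 𝓑 ↔
    b ∈ 𝓑 ∧ ∃ f : Polynomial ℤ, f.natDegree ≤ d ∧ f.coeff d = (b : ℤ) ∧
    (∀ a < X, |f.eval (a : ℤ)| ≤ B * (N : ℤ)) ∧ (X : ℝ) / Real.log N ^ U < exceptions ε A X f := by
  classical
  unfold badLeading
  rw [mem_filter]

/-- Let `d ≥ 2`, `D`, `C`, `A`, `B`, `U` and `0 < ε ≤ 1` be fixed, let `X` and `R ≤ X ^ d` be positive integers, and let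
`N = R X ^ d` be large. For EVERY polynomial `f(x) = b x ^ d + …` with integer coefficients and `|f(a)| ≤ B N` for
`0 ≤ a < X`, the values `m = f(a)`, `0 ≤ a < X`, which are positive, with at most `X / log ^ U N` exceptions, have the
following property: for all real `x = lam φ(m) log m` with `m ≤ x ≤ m (log m) ^ A` one has `p(c, m) ≤ x` for all reduced
classes `c` modulo `m` with at most `(1 + ε) φ(m) / (1 + lam)` exceptions, and `|ψ(x; m, c) - x / φ(m)| < η x / φ(m)` with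
at most `(1 + ε) φ(m) / (η² lam)` exceptions for all `η > 0`. Here the leading coefficient `b` may be

* any member, with at most `#𝓑 / log ^ U N` exceptions, of an arbitrary set `𝓑` of integers in `[R, 2 R]` with at least
  `N ^ (1 / D)` elements, provided that the gcd sum of `𝓑` is at most `log ^ C N` times its least possible order of
  magnitude `(#𝓑) ^ 2` (as is the case if the members of `𝓑` are coprime in pairs);
* in particular every integer in `[R, 2 R]`, with at most `R / log ^ U N` exceptions, if `N ≤ R ^ D`. -/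
theorem result (d D C A B U : ℕ) (_hd : 2 ≤ d) (ε : ℝ) (hε : 0 < ε) (hε1 : ε ≤ 1) :
    (∃ N₀ : ℕ, ∀ X R N : ℕ, 1 ≤ X → 1 ≤ R → R ≤ X ^ d → N = R * X ^ d → N₀ ≤ N → ∀ 𝓑 : Finset ℕ,
      (∀ b ∈ 𝓑, R ≤ b ∧ b ≤ 2 * R) → N ≤ 𝓑.card ^ D →
      ∑ b ∈ 𝓑.offDiag, (Nat.gcd b.1 b.2 : ℝ) ≤ Real.log N ^ C * (𝓑.card : ℝ) ^ 2 →
      ((badLeading ε A U B d X N 𝓑).card : ℝ) ≤ 𝓑.card / Real.log N ^ U) ∧
    (∃ N₀ : ℕ, ∀ X R N : ℕ, 1 ≤ X → R ≤ X ^ d → N = R * X ^ d → N₀ ≤ N → N ≤ R ^ D →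
      ((badLeading ε A U B d X N (Icc R (2 * R))).card : ℝ) ≤ R / Real.log N ^ U) := by
  have key : ∀ C U : ℕ, ∃ N₀ : ℕ, ∀ X R N : ℕ, 1 ≤ X → 1 ≤ R → R ≤ X ^ d → N = R * X ^ d → N₀ ≤ N → ∀ 𝓑 : Finset ℕ,
      (∀ b ∈ 𝓑, R ≤ b ∧ b ≤ 2 * R) → N ≤ 𝓑.card ^ D →
      ∑ b ∈ 𝓑.offDiag, (Nat.gcd b.1 b.2 : ℝ) ≤ Real.log N ^ C * (𝓑.card : ℝ) ^ 2 →
      ((badLeading ε A U B d X N 𝓑).card : ℝ) ≤ 𝓑.card / Real.log N ^ U := by
    classical
    intro C U
    obtain ⟨P, hP⟩ : ∃ P : ℕ → Prop, ∀ m, P m ↔ ¬ Good ε A m := ⟨fun m => ¬ Good ε A m, fun m => Iff.rfl⟩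
    obtain ⟨h, C', n0, hh, h0⟩ := Pool.Agent.Helper82K9.TF.all_polys d D C U (B + 2) (by omega) (by omega)
    obtain ⟨n1, h1⟩ := Pool.Agent.Helper82K9.TF.lp_familyB h (B + 2) C' A (2 * U + 1) ε hε hε1
    refine ⟨n0 + n1, fun X R N hX hR hRX hNe hN 𝓑 h𝓑 hc hg => ?_⟩
    have h2 := h0 X R N hX hR hRX hNe (by omega) P (by
      intro ι _ v hv hE
      refine le_trans ?_ (h1 N (by omega) ι v hv hE)
      rw [Nat.cast_le]
      apply card_le_card
      intro i hi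
      rw [mem_filter] at hi ⊢
      refine ⟨hi.1, hi.2.1, ?_⟩
      have h3 := (hP _).1 hi.2.2
      rw [good_iff] at h3
      exact h3) 𝓑 h𝓑 hc hg
    refine le_trans ?_ h2
    rw [Nat.cast_le]
    apply card_le_card
    intro b hb
    rw [mem_bad] at hb
    rw [mem_filter]
    obtain ⟨hb1, f, g1, g2, g3, g4⟩ := hb
    refine ⟨hb1, f, g1, g2, fun a ha => (g3 a ha).trans ?_, lt_of_lt_of_le g4 ?_⟩
    · push_cast
      have : (0 : ℤ) ≤ N := Int.natCast_nonneg _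
      nlinarith
    · rw [Nat.cast_le]
      exact exceptions_le P ε A hP X f
  refine ⟨key C U, ?_⟩
  obtain ⟨n1, h1⟩ := key 2 (U + 1)
  obtain ⟨n2, h2⟩ := Pool.Agent.Helper82K9.TF.ev_pow_log 8 1 le_rfl
  refine ⟨n1 + n2 + 3, fun X R N hX hRX hNe hN hRD => ?_⟩
  obtain ⟨hL, hL1⟩ := h2 N (by omega)
  rw [pow_one] at hL
  have hR : 1 ≤ R := by
    by_contra hcon
    have h3 : R = 0 := by omega
    subst h3
    rw [zero_mul] at hNe
    omega
  have hRN : R ^ 2 ≤ N := by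
    rw [hNe, pow_two]
    exact Nat.mul_le_mul_left _ hRX
  have hc : (Icc R (2 * R)).card = R + 1 := by rw [Nat.card_Icc]; omega
  have hN0 : (0 : ℝ) < N := by exact_mod_cast (by omega : 0 < N)
  have hR0 : (0 : ℝ) < R := by exact_mod_cast hR
  have hX0 : (0 : ℝ) < X := by exact_mod_cast hX
  have hgs : ∑ b ∈ (Icc R (2 * R)).offDiag, (Nat.gcd b.1 b.2 : ℝ) ≤ Real.log N ^ 2 * ((Icc R (2 * R)).card : ℝ) ^ 2 := by
    have h3 : ∑ b ∈ (Icc R (2 * R)).offDiag, (Nat.gcd b.1 b.2 : ℝ) ≤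
        ∑ a ∈ Icc 1 (2 * R), ∑ b ∈ Icc 1 (2 * R), (Nat.gcd a b : ℝ) := by
      rw [← sum_product']
      apply sum_le_sum_of_subset_of_nonneg
      · intro b hb
        rw [mem_offDiag, mem_Icc, mem_Icc] at hb
        rw [mem_product, mem_Icc, mem_Icc]
        omega
      · intro b _ _; exact Nat.cast_nonneg _
    have h4 := Pool.Agent.Helper82K9.TF.gcd_sum_le (2 * R)
    have h5 : ∑ d ∈ Icc 1 (2 * R), 1 / (d : ℝ) ≤ 1 + Real.log ((2 * R : ℕ) : ℝ) := by
      have h6 := harmonic_le_one_add_log (2 * R)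
      rw [harmonic_eq_sum_Icc] at h6
      push_cast at h6 ⊢
      simp only [one_div]
      exact h6
    have h7 : Real.log ((2 * R : ℕ) : ℝ) ≤ Real.log N := by
      apply Real.log_le_log (by positivity)
      have : 2 * R ≤ N := by
        rcases Nat.lt_or_ge R 2 with h | h
        · omega
        · nlinarith
      exact_mod_cast this
    rw [hc]
    have h8 : ((2 * R : ℕ) : ℝ) ^ 2 ≤ 4 * (((R + 1 : ℕ) : ℝ)) ^ 2 := by
      push_cast
      nlinarith
    calc ∑ b ∈ (Icc R (2 * R)).offDiag, (Nat.gcd b.1 b.2 : ℝ) ≤ ((2 * R : ℕ) : ℝ) ^ 2 * ∑ d ∈ Icc 1 (2 * R), 1 / (d : ℝ) :=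
          h3.trans h4
      _ ≤ (4 * (((R + 1 : ℕ) : ℝ)) ^ 2) * (1 + Real.log N) := by
          apply mul_le_mul h8 (by linarith) (sum_nonneg fun _ _ => by positivity) (by positivity)
      _ = (4 * (1 + Real.log N)) * (((R + 1 : ℕ) : ℝ)) ^ 2 := by ring
      _ ≤ Real.log N ^ 2 * (((R + 1 : ℕ) : ℝ)) ^ 2 := by
          apply mul_le_mul_of_nonneg_right _ (by positivity)
          nlinarith
  have h3 := h1 X R N hX hR hRX hNe (by omega) (Icc R (2 * R)) (fun b hb => by rw [mem_Icc] at hb; exact hb) (by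
    rw [hc]
    exact hRD.trans (Nat.pow_le_pow_left (by omega) D)) hgs
  have hL0 : 0 < Real.log (N : ℝ) := by linarith
  have hsub : badLeading ε A U B d X N (Icc R (2 * R)) ⊆ badLeading ε A (U + 1) B d X N (Icc R (2 * R)) := by
    intro b hb
    rw [mem_bad] at hb ⊢
    obtain ⟨hb1, f, g1, g2, g3, g4⟩ := hb
    refine ⟨hb1, f, g1, g2, g3, lt_of_le_of_lt ?_ g4⟩
    apply div_le_div_of_nonneg_left hX0.le (by positivity)
    exact pow_le_pow_right₀ hL1 (by omega)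
  have h4 : ((badLeading ε A U B d X N (Icc R (2 * R))).card : ℝ) ≤ ((Icc R (2 * R)).card : ℝ) / Real.log N ^ (U + 1) := by
    refine le_trans ?_ h3
    exact_mod_cast card_le_card hsub
  refine h4.trans ?_
  rw [hc, pow_succ, div_le_div_iff₀ (by positivity) (by positivity)]
  push_cast
  have h5 : (1 : ℝ) ≤ R := by exact_mod_cast hR
  have h6 : 0 < Real.log (N : ℝ) ^ U := by positivity
  have h7 : (R : ℝ) + 1 ≤ R * Real.log N := by nlinarith
  calc ((R : ℝ) + 1) * Real.log N ^ U ≤ (R * Real.log N) * Real.log N ^ U := mul_le_mul_of_nonneg_right h7 h6.le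
    _ = _ := by ring

end Pool.Agent.Results.MP_e1dc24_nt.LargeLeadingCoefficients
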