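import Pool.Agent.Helper82K9.TF.TF4
import Pool.Agent.Helper82K9.TF.TF5

/-!
# Least primes for almost all moduli in every residue class to almost every difference

Nothing is used besides Mathlib in the statement.
-/

set_option autoImplicit false

namespace Pool.Agent.Results.MP_e1dc24_nt.ModuliInEveryClass

open Finset

open Classical in
/-- The number of the `c` with `0 ≤ c < m` and `gcd(c, m) = 1` for which no prime `p ≤ x` is congruent to `c` modulo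
`m`; for `m ≥ 2` this is the number of the reduced classes with `p(c, m) > x`. -/
noncomputable def late (m : ℕ) (x : ℝ) : ℕ :=
  ((range m).filter (fun c => Nat.Coprime c m ∧ ∀ p : ℕ, p.Prime → (p : ℝ) ≤ x → ¬ p % m = c)).card

/-- `ψ(x; m, c) = ∑_{n ≤ x, n ≡ c mod m} Λ(n)` for `0 ≤ c < m` -/
noncomputable def psiAP (x : ℝ) (m c : ℕ) : ℝ :=
  ∑ n ∈ (Icc 1 ⌊x⌋₊).filter (fun n => n % m = c), ArithmeticFunction.vonMangoldt n

open Classical in
/-- The number of the `c` with `0 ≤ c < m` and `gcd(c, m) = 1` with `|ψ(x; m, c) - x / φ(m)| ≥ η x / φ(m)`. -/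
noncomputable def off (m : ℕ) (x η : ℝ) : ℕ :=
  ((range m).filter (fun c => Nat.Coprime c m ∧ η * (x / (Nat.totient m : ℝ)) ≤
    |psiAP x m c - x / (Nat.totient m : ℝ)|)).card

/-- For all real `x = lam φ(m) log m` with `m ≤ x ≤ m (log m) ^ A`: the least prime `p(c, m)` is larger than `x` for at
most `(1 + ε) φ(m) / (1 + lam)` of the reduced classes `c`, and for all `η > 0` at most `(1 + ε) φ(m) / (η² lam)` of the
reduced classes `c` have `|ψ(x; m, c) - x / φ(m)| ≥ η x / φ(m)`. -/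
def Good (ε : ℝ) (A m : ℕ) : Prop :=
  ∀ x : ℝ, (m : ℝ) ≤ x → x ≤ m * Real.log m ^ A →
    (late m x : ℝ) * (1 + x / (Nat.totient m * Real.log m)) ≤ (1 + ε) * Nat.totient m ∧
    ∀ η : ℝ, 0 < η → (off m x η : ℝ) * (η ^ 2 * (x / (Nat.totient m * Real.log m))) ≤ (1 + ε) * Nat.totient m

lemma good_iff (ε : ℝ) (A m : ℕ) : Good ε A m ↔ Pool.Agent.R501.LP.LpG ε A m := Iff.rfl

open Classical in
/-- The number of the moduli `m ≤ N` with `m ≡ c mod b` for which `Good` fails. -/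
noncomputable def exceptions (ε : ℝ) (A N b : ℕ) (c : ℤ) : ℕ :=
  ((Icc 1 N).filter (fun m : ℕ => (m : ℤ) ≡ c [ZMOD b] ∧ ¬ Good ε A m)).card

open Classical in
/-- The members `b` of `𝓑` for which there is a residue class `c` modulo `b` with more than `(N / b) / log ^ U N`
exceptional moduli `m ≤ N`, `m ≡ c mod b`. -/
noncomputable def badDifferences (ε : ℝ) (A U N : ℕ) (𝓑 : Finset ℕ) : Finset ℕ :=
  𝓑.filter (fun b => ∃ c : ℤ, (N : ℝ) / (b * Real.log N ^ U) < exceptions ε A N b c)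

lemma exceptions_le (P : ℕ → Prop) (ε : ℝ) (A : ℕ) (hP : ∀ m, P m ↔ ¬ Good ε A m) (N b : ℕ) (c : ℤ) :
    exceptions ε A N b c ≤ Pool.Agent.Helper82K9.TF.inClass P N b c := by
  classical
  unfold exceptions Pool.Agent.Helper82K9.TF.inClass
  apply card_le_card
  intro m hm
  rw [mem_filter] at hm ⊢
  exact ⟨hm.1, hm.2.1, (hP m).2 hm.2.2⟩

lemma mem_bad (ε : ℝ) (A U N : ℕ) (𝓑 : Finset ℕ) (b : ℕ) : b ∈ badDifferences ε A U N 𝓑 ↔
    b ∈ 𝓑 ∧ ∃ c : ℤ, (N : ℝ) / (b * Real.log N ^ U) < exceptions ε A N b c := by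
  classical
  unfold badDifferences
  rw [mem_filter]

open Classical in
lemma lp_prop (P : ℕ → Prop) (ε : ℝ) (hε : 0 < ε) (hε1 : ε ≤ 1) (A : ℕ) (hP : ∀ m, P m ↔ ¬ Good ε A m) :
    ∀ h C U : ℕ, 1 ≤ h → ∃ N₀ : ℕ, ∀ N : ℕ, N₀ ≤ N →
      ∀ (ι : Type) [Fintype ι] (v : ι → ℤ), (∀ i, |v i| ≤ N) →
      (Pool.Agent.TH212.EH.En h v : ℝ) * N ≤ Real.log N ^ C * (Fintype.card ι : ℝ) ^ (2 * h) →
      ((univ.filter (fun i => 0 < v i ∧ P (v i).toNat)).card : ℝ) ≤ Fintype.card ι / Real.log N ^ U := by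
  intro h C U hh
  obtain ⟨N₀, h0⟩ := Pool.Agent.Helper82K9.TF.lp_family h C A U hh ε hε hε1
  refine ⟨N₀, fun N hN ι _ v hv hE => ?_⟩
  refine le_trans ?_ (h0 N hN ι v hv hE)
  rw [Nat.cast_le]
  apply card_le_card
  intro i hi
  rw [mem_filter] at hi ⊢
  refine ⟨hi.1, hi.2.1, ?_⟩
  have h1 := (hP _).1 hi.2.2
  rw [good_iff] at h1
  exact h1

/-- Let `D`, `C`, `A`, `U` and `0 < ε ≤ 1` be fixed and let `N` be large. For all the moduli `m ≤ N` in every residue class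
`c` modulo `b`, except for at most `(N / b) / log ^ U N` of them, one has `p(a, m) ≤ x` for all reduced classes `a` modulo
`m` with at most `(1 + ε) φ(m) / (1 + lam)` exceptions, for all real `x = lam φ(m) log m` with `m ≤ x ≤ m (log m) ^ A`,
and `|ψ(x; m, a) - x / φ(m)| < η x / φ(m)` with at most `(1 + ε) φ(m) / (η² lam)` exceptions for all `η > 0`. Here `b` may be

* any member, with at most `#𝓑 / log ^ U N` exceptions, of an arbitrary set `𝓑` of integers in `[R, 2 R]` with at least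
  `N ^ (1 / D)` elements, where `R ≤ √N` is arbitrary, provided that the gcd sum of `𝓑` is at most `log ^ C N` times its
  least possible order of magnitude `(#𝓑) ^ 2` (as is the case if the members of `𝓑` are coprime in pairs);
* in particular every integer in `[R, 2 R]`, with at most `R / log ^ U N` exceptions, for `N ^ (1 / D) ≤ R ≤ √N`. -/
theorem result (D C A U : ℕ) (ε : ℝ) (hε : 0 < ε) (hε1 : ε ≤ 1) :
    (∃ N₀ : ℕ, ∀ N : ℕ, N₀ ≤ N → ∀ R : ℕ, 1 ≤ R → R ^ 2 ≤ N → ∀ 𝓑 : Finset ℕ,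
      (∀ b ∈ 𝓑, R ≤ b ∧ b ≤ 2 * R) → N ≤ 𝓑.card ^ D →
      ∑ b ∈ 𝓑.offDiag, (Nat.gcd b.1 b.2 : ℝ) ≤ Real.log N ^ C * (𝓑.card : ℝ) ^ 2 →
      ((badDifferences ε A U N 𝓑).card : ℝ) ≤ 𝓑.card / Real.log N ^ U) ∧
    (∃ N₀ : ℕ, ∀ N : ℕ, N₀ ≤ N → ∀ R : ℕ, R ^ 2 ≤ N → N ≤ R ^ D →
      ((badDifferences ε A U N (Icc R (2 * R))).card : ℝ) ≤ R / Real.log N ^ U) := by
  have key : ∀ C U : ℕ, ∃ N₀ : ℕ, ∀ N : ℕ, N₀ ≤ N → ∀ R : ℕ, 1 ≤ R → R ^ 2 ≤ N → ∀ 𝓑 : Finset ℕ,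
      (∀ b ∈ 𝓑, R ≤ b ∧ b ≤ 2 * R) → N ≤ 𝓑.card ^ D →
      ∑ b ∈ 𝓑.offDiag, (Nat.gcd b.1 b.2 : ℝ) ≤ Real.log N ^ C * (𝓑.card : ℝ) ^ 2 →
      ((badDifferences ε A U N 𝓑).card : ℝ) ≤ 𝓑.card / Real.log N ^ U := by
    classical
    intro C U
    obtain ⟨P, hP⟩ : ∃ P : ℕ → Prop, ∀ m, P m ↔ ¬ Good ε A m := ⟨fun m => ¬ Good ε A m, fun m => Iff.rfl⟩
    obtain ⟨N₀, h0⟩ := Pool.Agent.Helper82K9.TF.all_classes P (lp_prop P ε hε hε1 A hP) D C U
    refine ⟨N₀, fun N hN R hR hRN 𝓑 h𝓑 hc hg => ?_⟩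
    have h1 := h0 N hN R hR hRN 𝓑 h𝓑 hc hg
    refine le_trans ?_ h1
    rw [Nat.cast_le]
    apply card_le_card
    intro b hb
    rw [mem_bad] at hb
    rw [mem_filter]
    obtain ⟨hb1, c, hc⟩ := hb
    refine ⟨hb1, c, lt_of_lt_of_le hc ?_⟩
    rw [Nat.cast_le]
    exact exceptions_le P ε A hP N b c
  refine ⟨key C U, ?_⟩
  obtain ⟨n1, h1⟩ := key 2 (U + 1)
  obtain ⟨n2, h2⟩ := Pool.Agent.Helper82K9.TF.ev_pow_log 8 1 le_rfl
  refine ⟨n1 + n2 + 3, fun N hN R hRN hRD => ?_⟩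
  obtain ⟨hL, hL1⟩ := h2 N (by omega)
  rw [pow_one] at hL
  have hR : 1 ≤ R := by
    by_contra hcon
    have h3 : R = 0 := by omega
    subst h3
    have : (0 : ℕ) ^ D ≤ 1 := by
      rcases Nat.eq_zero_or_pos D with h | h
      · rw [h, pow_zero]
      · rw [zero_pow (by omega)]; omega
    omega
  have hc : (Icc R (2 * R)).card = R + 1 := by rw [Nat.card_Icc]; omega
  have hN0 : (0 : ℝ) < N := by exact_mod_cast (by omega : 0 < N)
  have hR0 : (0 : ℝ) < R := by exact_mod_cast hR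
  have hgs : ∑ b ∈ (Icc R (2 * R)).offDiag, (Nat.gcd b.1 b.2 : ℝ) ≤ Real.log N ^ 2 * ((Icc R (2 * R)).card : ℝ) ^ 2 := by
    have h3 : ∑ b ∈ (Icc R (2 * R)).offDiag, (Nat.gcd b.1 b.2 : ℝ) ≤
        ∑ a ∈ Icc 1 (2 * R), ∑ b ∈ Icc 1 (2 * R), (Nat.gcd a b : ℝ) := by
      rw [← sum_product']
      apply sum_le_sum_of_subset_of_nonneg
      · intro b hb
        rw [mem_offDiag, mem_Icc, mem_Icc] at hb
        rw [mem_product, mem_Icc, mem_Icc]
        omega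
      · intro b _ _; exact Nat.cast_nonneg _
    have h4 := Pool.Agent.Helper82K9.TF.gcd_sum_le (2 * R)
    have h5 : ∑ d ∈ Icc 1 (2 * R), 1 / (d : ℝ) ≤ 1 + Real.log ((2 * R : ℕ) : ℝ) := by
      have h6 := harmonic_le_one_add_log (2 * R)
      rw [harmonic_eq_sum_Icc] at h6
      push_cast at h6 ⊢
      simp only [one_div]
      exact h6
    have h7 : Real.log ((2 * R : ℕ) : ℝ) ≤ Real.log N := by
      apply Real.log_le_log (by positivity)
      have : 2 * R ≤ N := by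
        rcases Nat.lt_or_ge R 2 with h | h
        · omega
        · nlinarith
      exact_mod_cast this
    rw [hc]
    have h8 : ((2 * R : ℕ) : ℝ) ^ 2 ≤ 4 * (((R + 1 : ℕ) : ℝ)) ^ 2 := by
      push_cast
      nlinarith
    calc ∑ b ∈ (Icc R (2 * R)).offDiag, (Nat.gcd b.1 b.2 : ℝ) ≤ ((2 * R : ℕ) : ℝ) ^ 2 * ∑ d ∈ Icc 1 (2 * R), 1 / (d : ℝ) :=
          h3.trans h4
      _ ≤ (4 * (((R + 1 : ℕ) : ℝ)) ^ 2) * (1 + Real.log N) := by
          apply mul_le_mul h8 (by linarith) (sum_nonneg fun _ _ => by positivity) (by positivity)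
      _ = (4 * (1 + Real.log N)) * (((R + 1 : ℕ) : ℝ)) ^ 2 := by ring
      _ ≤ Real.log N ^ 2 * (((R + 1 : ℕ) : ℝ)) ^ 2 := by
          apply mul_le_mul_of_nonneg_right _ (by positivity)
          nlinarith
  have h3 := h1 N (by omega) R hR hRN (Icc R (2 * R)) (fun b hb => by rw [mem_Icc] at hb; exact hb) (by
    rw [hc]
    exact hRD.trans (Nat.pow_le_pow_left (by omega) D)) hgs
  have hL0 : 0 < Real.log (N : ℝ) := by linarith
  have hsub : badDifferences ε A U N (Icc R (2 * R)) ⊆ badDifferences ε A (U + 1) N (Icc R (2 * R)) := by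
    intro b hb
    rw [mem_bad] at hb ⊢
    obtain ⟨hb1, c, hc⟩ := hb
    refine ⟨hb1, c, lt_of_le_of_lt ?_ hc⟩
    rw [mem_Icc] at hb1
    have hb0 : (0 : ℝ) < b := by exact_mod_cast (by omega : 0 < b)
    apply div_le_div_of_nonneg_left hN0.le (by positivity)
    exact mul_le_mul_of_nonneg_left (pow_le_pow_right₀ hL1 (by omega)) hb0.le
  have h4 : ((badDifferences ε A U N (Icc R (2 * R))).card : ℝ) ≤ ((Icc R (2 * R)).card : ℝ) / Real.log N ^ (U + 1) := by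
    refine le_trans ?_ h3
    exact_mod_cast card_le_card hsub
  refine h4.trans ?_
  rw [hc, pow_succ, div_le_div_iff₀ (by positivity) (by positivity)]
  push_cast
  have h5 : (1 : ℝ) ≤ R := by exact_mod_cast hR
  have h6 : 0 < Real.log (N : ℝ) ^ U := by positivity
  have h7 : (R : ℝ) + 1 ≤ R * Real.log N := by nlinarith
  calc ((R : ℝ) + 1) * Real.log N ^ U ≤ (R * Real.log N) * Real.log N ^ U := mul_le_mul_of_nonneg_right h7 h6.le
    _ = _ := by ring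

end Pool.Agent.Results.MP_e1dc24_nt.ModuliInEveryClass
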