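import Pool.Agent.Helper4.TP.Fam

/-!
# Products of two primes in EVERY reduced class, for almost all moduli of every thin family of small additive energy

Nothing is used besides Mathlib in the statement.
-/

set_option autoImplicit false

namespace Pool.Agent.Results.MP_e1dc24_nt.ProductsOfTwoPrimes

open Finset

/-- The sum of `log p log q` over the pairs of primes `p ≤ x`, `q ≤ y` with `p q ≡ c mod d` (for `0 ≤ c < d`). -/
noncomputable def products (x y : ℝ) (d c : ℕ) : ℝ :=
  ∑ p ∈ (Icc 1 ⌊x⌋₊).filter Nat.Prime, ∑ q ∈ (Icc 1 ⌊y⌋₊).filter Nat.Prime,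
    if p * q % d = c then Real.log p * Real.log q else 0

/-- For all real `x, y` in `[d, d (log d) ^ A]` and for EVERY class `c` coprime to `d`: the primes `p ≤ x`, `q ≤ y` with
`p q ≡ c mod d` have their expected weighted number `x y / φ(d)`, up to the factor
`1 ± (ε + (1 + ε) φ(d) log d / √(x y))`, and in particular there are such primes `p`, `q` as soon as
`√(x y) > (1 + ε) / (1 - ε) φ(d) log d`. -/
def Good (ε : ℝ) (A d : ℕ) : Prop :=
  ∀ x y : ℝ, (d : ℝ) ≤ x → x ≤ d * Real.log d ^ A → (d : ℝ) ≤ y → y ≤ d * Real.log d ^ A →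
    ∀ c < d, c.Coprime d →
      |products x y d c - x * y / (Nat.totient d : ℝ)| ≤
        (ε + (1 + ε) * ((Nat.totient d : ℝ) * Real.log d / √(x * y))) * (x * y / (Nat.totient d : ℝ)) ∧
      ((1 + ε) * ((Nat.totient d : ℝ) * Real.log d) < (1 - ε) * √(x * y) →
        ∃ p q : ℕ, p.Prime ∧ q.Prime ∧ (p : ℝ) ≤ x ∧ (q : ℝ) ≤ y ∧ p * q % d = c)

/-- The additive energy of order `h` of a finite family of integers `v i`: the number of solutions of
`v (a 1) + ... + v (a h) = v (b 1) + ... + v (b h)`. -/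
noncomputable def energy (h : ℕ) {ι : Type} [Fintype ι] (v : ι → ℤ) : ℕ :=
  Nat.card {q : (Fin h → ι) × (Fin h → ι) // ∑ j, v (q.1 j) = ∑ j, v (q.2 j)}

open Classical in
/-- The number of the members of the family which are positive, but for which `Good` fails. -/
noncomputable def exceptions (ε : ℝ) (A : ℕ) {ι : Type} [Fintype ι] (v : ι → ℤ) : ℕ :=
  (univ.filter (fun i => 0 < v i ∧ ¬ Good ε A (v i).toNat)).card

lemma exists_primes {ε s w T x y : ℝ} {d c : ℕ} (hs : 0 < s) (hw : 0 < w)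
    (h : |products x y d c - s| ≤ (ε + (1 + ε) * (T / w)) * s) (hT : (1 + ε) * T < (1 - ε) * w)
    (hx : 0 ≤ x) (hy : 0 ≤ y) :
    ∃ p q : ℕ, p.Prime ∧ q.Prime ∧ (p : ℝ) ≤ x ∧ (q : ℝ) ≤ y ∧ p * q % d = c := by
  by_contra hcon
  push Not at hcon
  have h0 : products x y d c = 0 := by
    unfold products
    apply sum_eq_zero
    intro p hp
    apply sum_eq_zero
    intro q hq
    rw [mem_filter, mem_Icc] at hp hq
    rw [if_neg]
    exact hcon p q hp.2 hq.2 ((Nat.le_floor_iff hx).1 hp.1.2) ((Nat.le_floor_iff hy).1 hq.1.2)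
  rw [h0, zero_sub, abs_neg, abs_of_pos hs] at h
  have h1 : 1 * s ≤ (ε + (1 + ε) * (T / w)) * s := by rwa [one_mul]
  have h2 : 1 ≤ ε + (1 + ε) * (T / w) := le_of_mul_le_mul_right h1 hs
  have h3 : (1 + ε) * (T / w) < 1 - ε := by
    rw [mul_div_assoc', div_lt_iff₀ hw]
    exact hT
  linarith

lemma good_of_every {ε : ℝ} {A d : ℕ} (hd : 0 < d) (h : Pool.Agent.Helper4.TP.Every ε A d) : Good ε A d := by
  intro x y hx1 hx2 hy1 hy2 c hc hcd
  have h1 := h x y hx1 hx2 hy1 hy2 c hc hcd
  refine ⟨h1, fun hT => ?_⟩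
  have hd0 : (0 : ℝ) < d := by exact_mod_cast hd
  have hx0 : 0 < x := by linarith
  have hy0 : 0 < y := by linarith
  have hφ : (0 : ℝ) < (Nat.totient d : ℝ) := by exact_mod_cast Nat.totient_pos.2 hd
  exact exists_primes (by positivity) (Real.sqrt_pos.2 (by positivity)) h1 hT hx0.le hy0.le

/-- Let `h`, `B`, `C`, `A`, `U` and `0 < ε ≤ 1` be fixed. For all large `N` and for EVERY finite family of integers `v i`
with `|v i| ≤ B N` whose additive energy of order `h` is at most `log ^ C N` times its least possible order of magnitude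
`(#ι) ^ (2 h) / N` (`#ι` may be as small as `N ^ (1 / h)`), all the moduli `d = v i` which are positive, with at most
`#ι / log ^ U N` exceptions, have the following property: for all real `x, y` in `[d, d (log d) ^ A]` and for EVERY class
`c` coprime to `d`, the sum of `log p log q` over the primes `p ≤ x`, `q ≤ y` with `p q ≡ c mod d` is
`(1 ± (ε + (1 + ε) φ(d) log d / √(x y))) x y / φ(d)`, and there are such primes if
`(1 + ε) φ(d) log d < (1 - ε) √(x y)`. -/
theorem result (h B C A U : ℕ) (ε : ℝ) (hε : 0 < ε) (hε1 : ε ≤ 1) :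
    ∃ N₀ : ℕ, ∀ N : ℕ, N₀ ≤ N → ∀ (ι : Type) [Fintype ι] (v : ι → ℤ), (∀ i, |v i| ≤ B * (N : ℤ)) →
      (energy h v : ℝ) * N ≤ Real.log N ^ C * (Fintype.card ι : ℝ) ^ (2 * h) →
      (exceptions ε A v : ℝ) ≤ Fintype.card ι / Real.log N ^ U := by
  classical
  obtain ⟨N₀, h0⟩ := Pool.Agent.Helper4.TP.tp_familyB h B C A U ε hε hε1
  refine ⟨N₀, fun N hN ι _ v hv hE => ?_⟩
  refine le_trans ?_ (h0 N hN ι v hv hE)
  rw [Nat.cast_le]
  unfold exceptions
  apply card_le_card
  intro i hi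
  rw [mem_filter] at hi ⊢
  refine ⟨hi.1, hi.2.1, fun hev => hi.2.2 (good_of_every ?_ hev)⟩
  have := hi.2.1
  omega

end Pool.Agent.Results.MP_e1dc24_nt.ProductsOfTwoPrimes
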